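import Mathlib

set_option autoImplicit false

namespace Pool.Agent.H.MP_d308b2_co

open Finset

def P := Σ n : ℕ, Equiv.Perm (Fin n)

def Emb (x y : P) (e : Fin x.1 → Fin y.1) : Prop :=
  StrictMono e ∧ ∀ i j, x.2 i < x.2 j ↔ y.2 (e i) < y.2 (e j)

lemma Emb.comp {x y z : P} {e : Fin x.1 → Fin y.1} {f : Fin y.1 → Fin z.1}
    (he : Emb x y e) (hf : Emb y z f) : Emb x z (f ∘ e) :=
  ⟨hf.1.comp he.1, fun i j => (he.2 i j).trans (hf.2 _ _)⟩

lemma sm_id {n : ℕ} {f : Fin n → Fin n} (h : StrictMono f) (i : Fin n) : f i = i :=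
  le_antisymm (h.le_id i) (h.id_le i)

lemma perm_eq {n : ℕ} (ρ π : Equiv.Perm (Fin n)) (h : ∀ i j, ρ i < ρ j ↔ π i < π j) : ρ = π := by
  have hs : StrictMono (fun i => π (ρ.symm i)) := fun i j hij => by
    apply (h _ _).1; simpa using hij
  ext i
  have := sm_id hs (ρ i)
  simp only [Equiv.symm_apply_apply] at this
  rw [this]

lemma Emb.size {x y : P} {e : Fin x.1 → Fin y.1} (he : Emb x y e) : x.1 ≤ y.1 := by
  simpa using Fintype.card_le_of_injective e he.1.injective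

lemma Emb.eq_of_size {x y : P} {e : Fin x.1 → Fin y.1} (he : Emb x y e) (h : y.1 ≤ x.1) :
    x = y := by
  obtain ⟨n, ρ⟩ := x
  obtain ⟨m, π⟩ := y
  have hnm : n = m := le_antisymm he.size h
  subst hnm
  have : ρ = π := perm_eq _ _ fun i j => by
    have := he.2 i j
    rwa [sm_id he.1, sm_id he.1] at this
  rw [this]

instance : PartialOrder P where
  le x y := ∃ e, Emb x y e
  le_refl x := ⟨id, strictMono_id, fun _ _ => Iff.rfl⟩
  le_trans _ _ _ := fun ⟨_, he⟩ ⟨_, hf⟩ => ⟨_, he.comp hf⟩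
  le_antisymm _ _ := fun ⟨_, he⟩ ⟨_, hf⟩ => he.eq_of_size hf.size

lemma le_def {x y : P} : x ≤ y ↔ ∃ e, Emb x y e := Iff.rfl

lemma size_lt {x y : P} (h : x ≤ y) (hne : x ≠ y) : x.1 < y.1 := by
  obtain ⟨e, he⟩ := h
  by_contra hc
  exact hne (he.eq_of_size (by omega))

def J (n : ℕ) : Finset P := (range (n + 1)).sigma (fun _ => univ)

lemma mem_J {x : P} {n : ℕ} (h : x.1 ≤ n) : x ∈ J n := by
  unfold J
  exact Finset.mem_sigma.2 ⟨by simpa [Nat.lt_succ_iff] using h, mem_univ _⟩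

noncomputable instance : LocallyFiniteOrder P := LocallyFiniteOrder.ofFiniteIcc fun _ b =>
  (J b.1).finite_toSet.subset fun _ hx => mem_J (by obtain ⟨e, he⟩ := hx.2; exact he.size)

noncomputable instance : DecidableEq P := Classical.decEq _

noncomputable def mu (x y : P) : ℤ := IncidenceAlgebra.mu ℤ x y

lemma mu_sum (a b : P) : ∑ x ∈ Icc a b, mu a x = if a = b then 1 else 0 :=
  IncidenceAlgebra.sum_Icc_mu_right a b

lemma uniq {ι : Type} [DecidableEq ι] (D : ι → Finset ι) (sz : ι → ℕ) (A : ι → Prop)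
    (F G : ι → ℤ) (hmem : ∀ i, A i → i ∈ D i)
    (hD : ∀ i, A i → ∀ j ∈ D i, A j ∧ (j ≠ i → sz j < sz i))
    (h : ∀ i, A i → ∑ j ∈ D i, F j = ∑ j ∈ D i, G j) : ∀ i, A i → F i = G i := by
  intro i
  induction' hn : sz i using Nat.strong_induction_on with n ih generalizing i
  intro hi
  have h1 := h i hi
  rw [← Finset.add_sum_erase _ _ (hmem i hi), ← Finset.add_sum_erase _ G (hmem i hi)] at h1
  have h2 : ∑ j ∈ (D i).erase i, F j = ∑ j ∈ (D i).erase i, G j :=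
    Finset.sum_congr rfl fun j hj => by
      obtain ⟨h3, h4⟩ := hD i hi j (mem_of_mem_erase hj)
      exact ih _ (hn ▸ h4 (ne_of_mem_erase hj)) j rfl h3
  omega

lemma exists_sub (y : P) {k : ℕ} (e : Fin k → Fin y.1) (he : StrictMono e) :
    ∃ ρ : Equiv.Perm (Fin k), Emb ⟨k, ρ⟩ y e := by
  have hm : StrictMono ((fun i => y.2 (e i)) ∘ Tuple.sort (fun i => y.2 (e i))) :=
    (Tuple.monotone_sort _).strictMono_of_injective
      ((y.2.injective.comp he.injective).comp (Equiv.injective _))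
  refine ⟨(Tuple.sort (fun i => y.2 (e i))).symm, he, fun i j => ?_⟩
  rw [← hm.lt_iff_lt]
  simp

def ds (x y : P) : P := ⟨x.1 + y.1, finSumFinEquiv.permCongr (x.2.sumCongr y.2)⟩

lemma ds_l (x y : P) (i : Fin x.1) :
    (ds x y).2 (Fin.castAdd y.1 i) = Fin.castAdd y.1 (x.2 i) := by
  show finSumFinEquiv ((x.2.sumCongr y.2) (finSumFinEquiv.symm _)) = _
  rw [finSumFinEquiv_symm_apply_castAdd]
  rfl

lemma ds_r (x y : P) (i : Fin y.1) :
    (ds x y).2 (Fin.natAdd x.1 i) = Fin.natAdd x.1 (y.2 i) := by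
  show finSumFinEquiv ((x.2.sumCongr y.2) (finSumFinEquiv.symm _)) = _
  rw [finSumFinEquiv_symm_apply_natAdd]
  rfl

lemma inl (x y : P) : Emb x (ds x y) (Fin.castAdd y.1) :=
  ⟨Fin.strictMono_castAdd _, fun i j => by
    rw [ds_l, ds_l]; exact (Fin.strictMono_castAdd _).lt_iff_lt.symm⟩

lemma inr (x y : P) : Emb y (ds x y) (Fin.natAdd x.1) :=
  ⟨Fin.strictMono_natAdd _, fun i j => by
    rw [ds_r, ds_r]; exact (Fin.strictMono_natAdd _).lt_iff_lt.symm⟩

lemma ds_lt (x y : P) (i : Fin (x.1 + y.1)) : ((ds x y).2 i).val < x.1 ↔ i.val < x.1 := by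
  induction i using Fin.addCases with
  | left i => rw [ds_l]; simp
  | right i => rw [ds_r]; simp

lemma toL {z a b : P} {e : Fin z.1 → Fin (ds a b).1} (he : Emb z (ds a b) e)
    (h : ∀ i, (e i).val < a.1) : Emb z a (fun i => ⟨e i, h i⟩) := by
  refine ⟨fun i j hij => he.1 hij, fun i j => ?_⟩
  rw [he.2, (inl a b).2]
  rfl

lemma toR {z a b : P} {e : Fin z.1 → Fin (ds a b).1} (he : Emb z (ds a b) e)
    (h : ∀ i, a.1 ≤ (e i).val) : ∃ f, Emb z b f ∧ ∀ i, e i = Fin.natAdd a.1 (f i) := by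
  have hf : ∀ i, e i = Fin.natAdd a.1
      (⟨e i - a.1, by have := (e i).2; have := h i; simp only [ds] at *; omega⟩ : Fin b.1) :=
    fun i => Fin.ext (by have := h i; simp; omega)
  refine ⟨_, ⟨fun i j hij => ?_, fun i j => ?_⟩, hf⟩
  · have h1 : (e i).val < (e j).val := he.1 hij
    have := h i
    show (e i).val - a.1 < (e j).val - a.1
    omega
  · rw [he.2, (inr a b).2, ← hf, ← hf]

lemma emb_ds {a b z : P} {p : Fin a.1 → Fin z.1} {q : Fin b.1 → Fin z.1} (hp : Emb a z p)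
    (hq : Emb b z q) (h1 : ∀ i j, p i < q j) (h2 : ∀ i j, z.2 (p i) < z.2 (q j)) :
    Emb (ds a b) z (Fin.addCases p q) := by
  have h3 : ∀ (i : Fin a.1) (j : Fin b.1), Fin.castAdd b.1 i < Fin.natAdd a.1 j := fun i j => by
    have := i.2
    show i.val < a.1 + j.val
    omega
  constructor
  · intro i j hij
    induction i using Fin.addCases with
    | left i =>
      induction j using Fin.addCases with
      | left j => simpa using hp.1 ((inl a b).1.lt_iff_lt.1 hij)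
      | right j => simpa using h1 i j
    | right i =>
      induction j using Fin.addCases with
      | left j => exact absurd hij (h3 j i).not_gt
      | right j => simpa using hq.1 ((inr a b).1.lt_iff_lt.1 hij)
  · intro i j
    induction i using Fin.addCases with
    | left i =>
      induction j using Fin.addCases with
      | left j => rw [← (inl a b).2]; simpa using hp.2 i j
      | right j => rw [ds_l, ds_r]; exact iff_of_true (h3 _ _) (by simpa using h2 i j)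
    | right i =>
      induction j using Fin.addCases with
      | left j => rw [ds_l, ds_r]; exact iff_of_false (h3 _ _).not_gt (by simpa using (h2 j i).le)
      | right j => rw [← (inr a b).2]; simpa using hq.2 i j

lemma cross (a b : P) {u v : Fin (ds a b).1} (hu : u.val < a.1) (hv : a.1 ≤ v.val) :
    u < v ∧ (ds a b).2 u < (ds a b).2 v := by
  have h1 := (ds_lt a b u).2 hu
  have h2 := (ds_lt a b v).not.2 (by omega)
  exact ⟨Fin.lt_def.2 (by omega), Fin.lt_def.2 (by omega)⟩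

lemma ds_mono {a b a' b' : P} (h1 : a ≤ a') (h2 : b ≤ b') : ds a b ≤ ds a' b' := by
  obtain ⟨p, hp⟩ := h1
  obtain ⟨q, hq⟩ := h2
  exact ⟨_, emb_ds (hp.comp (inl a' b')) (hq.comp (inr a' b'))
    (fun i j => (cross a' b' (by simp) (by simp)).1)
    (fun i j => (cross a' b' (by simp) (by simp)).2)⟩

lemma decomp {z t y : P} (h : z ≤ ds t y) : ∃ a b, z = ds a b ∧ a ≤ t ∧ b ≤ y := by
  classical
  obtain ⟨q, hq⟩ := h
  obtain ⟨n, ρ⟩ := z
  have hex : ∃ s, ∀ i : Fin n, s ≤ i.val → t.1 ≤ (q i).val := ⟨n, fun i hi => by omega⟩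
  have hs := Nat.find_spec hex
  have hsn : Nat.find hex ≤ n := Nat.find_min' hex fun i hi => by omega
  have hlo : ∀ i : Fin n, i.val < Nat.find hex → (q i).val < t.1 := fun i hi => by
    have := Nat.find_min hex hi
    push Not at this
    obtain ⟨j, hj, hj2⟩ := this
    have : (q i).val ≤ (q j).val := hq.1.monotone (show i ≤ j from hj)
    omega
  generalize Nat.find hex = s at hs hsn hlo
  obtain ⟨u, rfl⟩ := Nat.exists_eq_add_of_le hsn
  obtain ⟨α, hα⟩ := exists_sub ⟨s + u, ρ⟩ (Fin.castAdd u) (Fin.strictMono_castAdd _)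
  obtain ⟨β, hβ⟩ := exists_sub ⟨s + u, ρ⟩ (Fin.natAdd s) (Fin.strictMono_natAdd _)
  have h1 : ∀ i : Fin s, (q (Fin.castAdd u i)).val < t.1 := fun i => hlo _ (by simp)
  have h2 : ∀ i : Fin u, t.1 ≤ (q (Fin.natAdd s i)).val := fun i => hs _ (by simp)
  refine ⟨⟨s, α⟩, ⟨u, β⟩, ?_, ⟨_, toL (hα.comp hq) h1⟩, ⟨_, (toR (hβ.comp hq) h2).choose_spec.1⟩⟩
  symm
  exact (emb_ds hα hβ (fun i j => hq.1.lt_iff_lt.1 (cross t y (h1 i) (h2 j)).1)
    (fun i j => (hq.2 _ _).2 (cross t y (h1 i) (h2 j)).2)).eq_of_size le_rfl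

section
variable {σ τ : P} {i0 i1 : Fin σ.1}

def T (σ : P) (i1 : Fin σ.1) (a : P) : Prop := ∀ p, Emb σ a p → ∀ i, i ≤ p i1

lemma T.mono {a : P} (h : T σ i1 τ) (ha : a ≤ τ) : T σ i1 a := by
  obtain ⟨q, hq⟩ := ha
  intro p hp i
  exact hq.1.le_iff_le.1 (h _ (hp.comp hq) _)

lemma split (h0 : ∀ i, i0 ≤ i) (_ : ∀ i, i ≤ i1) (hinv : σ.2 i1 < σ.2 i0) {a a' b b' X : P}
    (ha : T σ i1 a) (ha' : T σ i1 a') (hσ : σ ≤ a) (hX : X ≤ b) (hn : ¬ ds σ X ≤ b')
    {r : Fin (ds a b).1 → Fin (ds a' b').1} (hr : Emb (ds a b) (ds a' b') r) :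
    (∀ i, (r (Fin.castAdd b.1 i)).val < a'.1) ∧ ∀ j, a'.1 ≤ (r (Fin.natAdd a.1 j)).val := by
  obtain ⟨p, hp⟩ := hσ
  obtain ⟨q, hq⟩ := hX
  have hu := (hp.comp (inl a b)).comp hr
  by_cases hA : (r (Fin.castAdd b.1 (p i0))).val < a'.1
  · have h2 : (r (Fin.castAdd b.1 (p i1))).val < a'.1 := by
      have h3 := (hu.2 i1 i0).1 hinv
      have h4 := (ds_lt a' b' _).2 hA
      exact (ds_lt a' b' _).1 (lt_trans h3 h4)
    have h5 : ∀ i, (r (Fin.castAdd b.1 i)).val < a'.1 := fun i =>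
      lt_of_le_of_lt (hr.1.monotone ((inl a b).1.monotone (ha p hp i))) h2
    refine ⟨h5, fun j => ?_⟩
    have h6 := ha' _ (toL hu fun i => h5 _) ⟨a'.1 - 1, by omega⟩
    have h7 : (r (Fin.castAdd b.1 (p i1))).val < (r (Fin.natAdd a.1 j)).val :=
      hr.1 (cross a b (by simp) (by simp)).1
    have h8 : a'.1 - 1 ≤ (r (Fin.castAdd b.1 (p i1))).val := h6
    omega
  · exfalso
    have hw := (emb_ds (hp.comp (inl a b)) (hq.comp (inr a b))
      (fun i j => (cross a b (by simp) (by simp)).1)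
      (fun i j => (cross a b (by simp) (by simp)).2)).comp hr
    refine hn ⟨_, (toR hw fun i => ?_).choose_spec.1⟩
    have h9 : Fin.castAdd X.1 i0 ≤ i := by
      induction i using Fin.addCases with
      | left i => exact (inl σ X).1.monotone (h0 i)
      | right i => exact (cross σ X (by simp) (by simp)).1.le
    have h10 := Fin.le_def.1 (hw.1.monotone h9)
    simp only [Function.comp, Fin.addCases_left] at h10 ⊢
    omega

lemma split_le (h0 : ∀ i, i0 ≤ i) (h1 : ∀ i, i ≤ i1) (hinv : σ.2 i1 < σ.2 i0) {a a' b b' X : P}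
    (ha : T σ i1 a) (ha' : T σ i1 a') (hσ : σ ≤ a) (hX : X ≤ b) (hn : ¬ ds σ X ≤ b')
    (hr : ds a b ≤ ds a' b') : a ≤ a' ∧ b ≤ b' := by
  obtain ⟨r, hr⟩ := hr
  obtain ⟨h2, h3⟩ := split h0 h1 hinv ha ha' hσ hX hn hr
  exact ⟨⟨_, toL ((inl a b).comp hr) h2⟩, ⟨_, (toR ((inr a b).comp hr) h3).choose_spec.1⟩⟩

lemma mu_ds (h0 : ∀ i, i0 ≤ i) (h1 : ∀ i, i ≤ i1) (hinv : σ.2 i1 < σ.2 i0) (hT : T σ i1 τ)
    {X Y : P} (hn : ¬ ds σ X ≤ Y) (hσ : σ ≤ τ) (hX : X ≤ Y) :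
    mu (ds σ X) (ds τ Y) = mu σ τ * mu X Y := by
  have inj : ∀ {a b a' b' : P}, σ ≤ a → a ≤ τ → X ≤ b → b ≤ Y → σ ≤ a' → a' ≤ τ → X ≤ b' →
      b' ≤ Y → ds a b = ds a' b' → a = a' ∧ b = b' := by
    intro a b a' b' g1 g2 g3 g4 g5 g6 g7 g8 h
    have k1 := split_le h0 h1 hinv (hT.mono g2) (hT.mono g6) g1 g3
      (fun h => hn (h.trans g8)) h.le
    have k2 := split_le h0 h1 hinv (hT.mono g6) (hT.mono g2) g5 g7
      (fun h => hn (h.trans g4)) h.ge
    exact ⟨le_antisymm k1.1 k2.1, le_antisymm k1.2 k2.2⟩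
  refine uniq (ι := P × P) (fun p => Icc σ p.1 ×ˢ Icc X p.2) (fun p => p.1.1 + p.2.1)
    (fun p => (σ ≤ p.1 ∧ p.1 ≤ τ) ∧ X ≤ p.2 ∧ p.2 ≤ Y) (fun p => mu (ds σ X) (ds p.1 p.2))
    (fun p => mu σ p.1 * mu X p.2) ?_ ?_ ?_ (τ, Y) ⟨⟨hσ, le_rfl⟩, hX, le_rfl⟩
  · rintro ⟨a, b⟩ ⟨⟨g1, g2⟩, g3, g4⟩
    simp only [mem_product, mem_Icc]
    exact ⟨⟨g1, le_rfl⟩, g3, le_rfl⟩
  · rintro ⟨a, b⟩ ⟨⟨g1, g2⟩, g3, g4⟩ ⟨c, d⟩ hj
    simp only [mem_product, mem_Icc] at hj
    refine ⟨⟨⟨hj.1.1, hj.1.2.trans g2⟩, hj.2.1, hj.2.2.trans g4⟩, fun hne => ?_⟩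
    have k1 : c.1 ≤ a.1 := hj.1.2.choose_spec.size
    have k2 : d.1 ≤ b.1 := hj.2.2.choose_spec.size
    by_cases hc : c = a
    · have := size_lt hj.2.2 (fun h => hne (by rw [hc, h]))
      dsimp only at *
      omega
    · have := size_lt hj.1.2 hc
      dsimp only at *
      omega
  · rintro ⟨a, b⟩ ⟨⟨g1, g2⟩, g3, g4⟩
    dsimp only at *
    rw [Finset.sum_product' _ _ (fun c d => mu σ c * mu X d), ← Finset.sum_mul_sum, mu_sum, mu_sum]
    have hI : Icc (ds σ X) (ds a b) = (Icc σ a ×ˢ Icc X b).image (fun p => ds p.1 p.2) := by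
      ext z
      simp only [mem_Icc, mem_image, mem_product]
      constructor
      · rintro ⟨k1, k2⟩
        obtain ⟨c, d, rfl, k3, k4⟩ := decomp k2
        have := split_le h0 h1 hinv (hT.mono hσ) (hT.mono (k3.trans g2)) le_rfl le_rfl
          (fun h => hn (h.trans (k4.trans g4))) k1
        exact ⟨(c, d), ⟨⟨this.1, k3⟩, this.2, k4⟩, rfl⟩
      · rintro ⟨⟨c, d⟩, ⟨⟨k1, k2⟩, k3, k4⟩, rfl⟩
        exact ⟨ds_mono k1 k3, ds_mono k2 k4⟩
    have hS := mu_sum (ds σ X) (ds a b)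
    rw [hI, Finset.sum_image] at hS
    · rw [hS]
      by_cases hc : ds σ X = ds a b
      · obtain ⟨k1, k2⟩ := inj le_rfl hσ le_rfl hX g1 g2 g3 g4 hc
        simp [k1, k2]
      · rw [if_neg hc]
        by_cases k1 : σ = a
        · rw [if_neg (fun k2 : X = b => hc (by rw [k1, k2]))]; simp
        · simp [k1]
    · rintro ⟨c, d⟩ hp ⟨c', d'⟩ hq h
      simp only [coe_product, coe_Icc, Set.mem_prod, Set.mem_Icc] at hp hq
      obtain ⟨k1, k2⟩ := inj hp.1.1 (hp.1.2.trans g2) hp.2.1 (hp.2.2.trans g4) hq.1.1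
        (hq.1.2.trans g2) hq.2.1 (hq.2.2.trans g4) h
      rw [k1, k2]

def pw (x : P) : ℕ → P
  | 0 => ⟨0, 1⟩
  | k + 1 => ds x (pw x k)

lemma pw_le (h0 : ∀ i, i0 ≤ i) (h1 : ∀ i, i ≤ i1) (hinv : σ.2 i1 < σ.2 i0) (hT : T σ i1 τ)
    (hσ : σ ≤ τ) : ∀ j k, pw σ k ≤ pw τ j → k ≤ j := by
  intro j
  induction j with
  | zero =>
    intro k h
    cases k with
    | zero => rfl
    | succ k =>
      have := h.choose_spec.size
      have := i0.2
      simp only [pw, ds] at *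
      omega
  | succ j ih =>
    intro k h
    cases k with
    | zero => omega
    | succ k =>
      by_cases hc : ds σ (pw σ k) ≤ pw τ j
      · have := ih (k + 1) hc
        omega
      · have := ih k (split_le h0 h1 hinv (hT.mono hσ) hT le_rfl le_rfl hc h).2
        omega

lemma main (h0 : ∀ i, i0 ≤ i) (h1 : ∀ i, i ≤ i1) (hinv : σ.2 i1 < σ.2 i0) (hT : T σ i1 τ)
    (hσ : σ ≤ τ) (hu : ∀ e e', Emb σ τ e → Emb σ τ e' → e = e') (k : ℕ) :
    pw σ k ≤ pw τ k ∧ mu (pw σ k) (pw τ k) = mu σ τ ^ k ∧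
      ∀ e e', Emb (pw σ k) (pw τ k) e → Emb (pw σ k) (pw τ k) e' → e = e' := by
  induction k with
  | zero => exact ⟨le_rfl, by simp [pw, mu], fun e e' _ _ => funext fun i => i.elim0⟩
  | succ k ih =>
    have hn : ¬ ds σ (pw σ k) ≤ pw τ k := fun h => by
      have := pw_le h0 h1 hinv hT hσ k (k + 1) h
      omega
    refine ⟨ds_mono hσ ih.1, ?_, fun e e' he he' => ?_⟩
    · rw [pow_succ', ← ih.2.1]
      exact mu_ds h0 h1 hinv hT hn hσ ih.1
    · obtain ⟨a1, a2⟩ := split h0 h1 hinv (hT.mono hσ) hT le_rfl le_rfl hn he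
      obtain ⟨b1, b2⟩ := split h0 h1 hinv (hT.mono hσ) hT le_rfl le_rfl hn he'
      have c1 := hu _ _ (toL ((inl _ _).comp he) a1) (toL ((inl _ _).comp he') b1)
      obtain ⟨f, hf, hf2⟩ := toR ((inr _ _).comp he) a2
      obtain ⟨f', hf', hf2'⟩ := toR ((inr _ _).comp he') b2
      have c2 := ih.2.2 _ _ hf hf'
      funext i
      induction i using Fin.addCases with
      | left i => exact Fin.ext (Fin.mk.inj_iff.1 (congrFun c1 i))
      | right i => exact (hf2 i).trans (by rw [c2]; exact (hf2' i).symm)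

end

end Pool.Agent.H.MP_d308b2_co
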