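import Pool.Agent.H.MP_d308b2_co.A

set_option autoImplicit false

namespace Pool.Agent.H.MP_d308b2_co

open Finset

def tv : Fin 12 → Fin 12 := ![5, 1, 3, 0, 7, 4, 11, 10, 2, 6, 9, 8]

def τ : P := ⟨12, ⟨tv, ![3, 1, 8, 2, 5, 0, 9, 4, 11, 10, 7, 6], by decide, by decide⟩⟩

def σ : P := ⟨4, Fin.revPerm⟩

def e0 : Fin 4 → Fin 12 := ![6, 7, 10, 11]

def std (w : List ℕ) : List ℕ := w.map fun v => w.countP (· < v)

def code (m : ℕ) : List ℕ :=
  std (((List.finRange 12).filter (fun u => m.testBit u.val)).map fun u => (tv u).val)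

def tab : List (List ℕ × ℤ × List ℕ) :=
  [([3, 2, 1, 0], 1, [3264]), ([0, 4, 3, 2, 1], -1, [3265, 3266, 3268, 3272, 3280, 3296]), ([4, 
  3, 0, 2, 1], -1, [3520, 3776]), ([1, 5, 4, 0, 3, 2], 1, [3521, 3524, 3536, 3792, 3552]), ([0, 
  5, 4, 1, 3, 2], 1, [3777, 3522, 3778, 3780, 3528, 3784, 3808]), ([2, 0, 6, 5, 1, 4, 3], -1, 
  [3523, 3529, 3532, 3824]), ([0, 2, 6, 5, 1, 4, 3], -1, [3793, 3526, 3538, 3794, 3554, 3796, 
  3544, 3800, 3560]), ([1, 6, 5, 0, 2, 4, 3], -1, [4033, 4036, 4064]), ([3, 0, 2, 7, 6, 1, 5, 4], 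
  1, [3527, 3555, 3561]), ([2, 0, 3, 7, 6, 1, 5, 4], 1, [3539, 3545, 3548, 3564]), ([2, 0, 7, 6, 
  1, 3, 5, 4], 1, [4035, 4041, 4044]), ([1, 3, 0, 7, 6, 2, 5, 4], 1, [3825, 3534]), ([1, 3, 7, 6, 
  0, 2, 5, 4], 1, [4049, 4052]), ([0, 2, 7, 6, 1, 3, 5, 4], 1, [4038, 4066, 4072]), ([0, 3, 1, 7, 
  6, 2, 5, 4], 1, [3826, 3828, 3832]), ([3, 1, 7, 6, 0, 2, 5, 4], 1, [4080]), ([4, 1, 3, 0, 8, 7, 
  2, 6, 5], -1, [3535]), ([3, 0, 2, 4, 8, 7, 1, 6, 5], -1, [3543]), ([3, 0, 2, 8, 7, 1, 4, 6, 5], 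
  -1, [4039, 4067, 4073]), ([3, 0, 4, 2, 8, 7, 1, 6, 5], -1, [3571, 3577]), ([2, 0, 4, 1, 8, 7, 
  3, 6, 5], -1, [3827, 3829, 3833]), ([2, 0, 4, 8, 7, 1, 3, 6, 5], -1, [4051, 4057, 4060]), ([4, 
  2, 0, 3, 8, 7, 1, 6, 5], -1, [3565]), ([2, 4, 1, 8, 7, 0, 3, 6, 5], -1, [4081]), ([1, 3, 0, 4, 
  8, 7, 2, 6, 5], -1, [3550, 3566]), ([1, 3, 0, 8, 7, 2, 4, 6, 5], -1, [4046]), ([0, 2, 4, 8, 7, 
  1, 3, 6, 5], -1, [4054]), ([0, 4, 2, 8, 7, 1, 3, 6, 5], -1, [4082, 4088]), ([2, 0, 3, 8, 7, 1, 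
  4, 6, 5], -1, [4076]), ([1, 4, 2, 8, 7, 0, 3, 6, 5], -1, [4084]), ([4, 1, 3, 0, 5, 9, 8, 2, 7, 
  6], 1, [3551]), ([5, 1, 3, 0, 4, 9, 8, 2, 7, 6], 1, [3567]), ([4, 1, 3, 0, 9, 8, 2, 5, 7, 6], 
  1, [4047]), ([4, 0, 2, 5, 3, 9, 8, 1, 7, 6], 1, [3575]), ([3, 0, 2, 5, 9, 8, 1, 4, 7, 6], 1, 
  [4055]), ([4, 2, 0, 5, 3, 9, 8, 1, 7, 6], 1, [3581]), ([4, 2, 0, 3, 9, 8, 1, 5, 7, 6], 1, 
  [4077]), ([3, 1, 5, 2, 9, 8, 0, 4, 7, 6], 1, [4085]), ([1, 3, 0, 5, 9, 8, 2, 4, 7, 6], 1, 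
  [4062]), ([1, 3, 0, 4, 9, 8, 2, 5, 7, 6], 1, [4078]), ([0, 2, 5, 3, 9, 8, 1, 4, 7, 6], 1, 
  [4086]), ([5, 1, 3, 0, 6, 4, 10, 9, 2, 8, 7], -1, [3583]), ([4, 1, 3, 0, 6, 10, 9, 2, 5, 8, 7], 
  -1, [4063]), ([5, 1, 3, 0, 4, 10, 9, 2, 6, 8, 7], -1, [4079]), ([4, 0, 2, 6, 3, 10, 9, 1, 5, 8, 
  7], -1, [4087]), ([1, 3, 0, 6, 4, 10, 9, 2, 5, 8, 7], -1, [4094]), ([5, 1, 3, 0, 7, 4, 11, 10, 
  2, 6, 9, 8], 2, [4095])]

lemma chkA0 : ∀ a < 64, ∀ b < 64, 3264 &&& (64 * a + b) = 3264 →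
    ∀ p ∈ tab, (code (64 * a + b) = p.1 ↔ 64 * a + b ∈ p.2.2) := by
  decide +kernel

lemma chkA (t : ℕ) (ht : t < 4096) : 3264 &&& t = 3264 → ∀ p ∈ tab, (code t = p.1 ↔ t ∈ p.2.2) := by
  have := chkA0 (t / 64) (by omega) (t % 64) (by omega)
  rwa [Nat.div_add_mod] at this

lemma chkB : ∀ p ∈ tab, ∀ t ∈ p.2.2, t < 4096 ∧ 3264 &&& t = 3264 := by
  decide +kernel

lemma chkC0 : ∀ a < 64, ∀ b < 64, 3264 &&& (64 * a + b) = 3264 →
    (tab.map fun p => if ∃ t ∈ p.2.2, t &&& (64 * a + b) = t then p.2.1 else 0).sum =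
      if 64 * a + b = 3264 then 1 else 0 := by
  decide +kernel

lemma chkC (s : ℕ) (hs : s < 4096) : 3264 &&& s = 3264 →
    (tab.map fun p => if ∃ t ∈ p.2.2, t &&& s = t then p.2.1 else 0).sum =
      if s = 3264 then 1 else 0 := by
  have := chkC0 (s / 64) (by omega) (s % 64) (by omega)
  rwa [Nat.div_add_mod] at this

lemma chk2 : ∀ a b : Fin 12, a < b ∧ tv b < tv a → ∀ c : Fin 12, b < c ∧ tv c < tv b →
    ∀ d : Fin 12, c < d ∧ tv d < tv c → [a, b, c, d] = [6, 7, 10, 11] := by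
  decide +kernel

lemma emb0 : Emb σ τ e0 := by
  unfold Emb StrictMono
  decide

lemma emb_uniq {e : Fin 4 → Fin 12} (he : Emb σ τ e) : e = e0 := by
  have h := chk2 (e 0) (e 1) ⟨he.1 (by decide), (he.2 (1 : Fin 4) (0 : Fin 4)).1 (by decide)⟩
    (e 2) ⟨he.1 (by decide), (he.2 (2 : Fin 4) (1 : Fin 4)).1 (by decide)⟩
    (e 3) ⟨he.1 (by decide), (he.2 (3 : Fin 4) (2 : Fin 4)).1 (by decide)⟩
  simp only [List.cons.injEq, and_true] at h
  funext i
  fin_cases i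
  exacts [h.1, h.2.1, h.2.2.1, h.2.2.2]

def codeP (z : P) : List ℕ := List.ofFn fun i => (z.2 i).val

lemma codeP_inj {z w : P} (h : codeP z = codeP w) : z = w := by
  obtain ⟨n, ρ⟩ := z
  obtain ⟨m, π⟩ := w
  have hl : n = m := by simpa [codeP] using congrArg List.length h
  subst hl
  have := List.ofFn_injective h
  have h2 : ρ = π := Equiv.ext fun i => Fin.ext (congrFun this i)
  rw [h2]

def R (z : P) (m : ℕ) : Prop :=
  m < 4096 ∧ ∃ e, Emb z τ e ∧ ∀ u : Fin 12, m.testBit u.val ↔ ∃ i, e i = u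

lemma code_aux {n m : ℕ} (ρ : Equiv.Perm (Fin n)) (e : Fin n → Fin 12) (he1 : StrictMono e)
    (he2 : ∀ i j, ρ i < ρ j ↔ tv (e i) < tv (e j))
    (hm : ∀ u : Fin 12, m.testBit u.val ↔ ∃ i, e i = u) :
    List.ofFn (fun i => (ρ i).val) = code m := by
  have h1 : (List.finRange 12).filter (fun u => m.testBit u.val) = List.ofFn e := by
    apply List.Pairwise.eq_of_mem_iff (r := (· < ·))
    · exact (List.pairwise_lt_finRange 12).filter _
    · exact List.pairwise_ofFn.2 fun i j hij => he1 hij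
    · intro u
      simp [hm]
  unfold code std
  rw [h1, List.map_ofFn, List.map_ofFn]
  congr 1
  funext i
  simp only [Function.comp]
  rw [List.ofFn_eq_map, List.countP_map, List.countP_eq_length_filter]
  have h2 : (univ.filter (fun j => ρ j < ρ i)).card = (ρ i).val := by
    rw [← Fin.card_Iio (ρ i)]
    exact Finset.card_bij (fun j _ => ρ j) (by simp) (by simp) fun b hb =>
      ⟨ρ.symm b, by simpa using hb, by simp⟩
  rw [← h2]
  show ((List.finRange n).filter _).length = _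
  congr 1
  apply List.filter_congr
  intro j _
  simp only [Function.comp, decide_eq_decide]
  exact he2 j i

lemma R_code {z : P} {m : ℕ} (h : R z m) : codeP z = code m := by
  obtain ⟨-, e, he, hm⟩ := h
  exact code_aux z.2 e he.1 he.2 hm

lemma R_of_emb {z : P} {e : Fin z.1 → Fin 12} (_ : Emb z τ e) :
    ∃ m, m < 4096 ∧ ∀ u : Fin 12, m.testBit u.val ↔ ∃ i, e i = u :=
  ⟨Nat.ofBits (fun u : Fin 12 => decide (∃ i, e i = u)), Nat.ofBits_lt_two_pow _, fun u => by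
    rw [Nat.testBit_ofBits_lt _ _ u.2]; simp⟩

lemma and_iff {t s : ℕ} (ht : t < 4096) :
    t &&& s = t ↔ ∀ u : Fin 12, t.testBit u.val → s.testBit u.val := by
  constructor
  · intro h u hu
    rw [← h, Nat.testBit_and] at hu
    simp only [Bool.and_eq_true] at hu
    exact hu.2
  · intro h
    apply Nat.eq_of_testBit_eq
    intro i
    rw [Nat.testBit_and]
    by_cases hi : i < 12
    · have := h ⟨i, hi⟩
      cases h1 : t.testBit i <;> simp_all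
    · have : t.testBit i = false := Nat.testBit_lt_two_pow
        (lt_of_lt_of_le ht (Nat.pow_le_pow_right (n := 2) (by norm_num) (show 12 ≤ i by omega)))
      simp [this]

lemma R_ex (m : ℕ) (hm : m < 4096) : ∃ z, R z m := by
  let S : Finset (Fin 12) := univ.filter (fun u => m.testBit u.val)
  obtain ⟨ρ, hρ⟩ := exists_sub τ (S.orderEmbOfFin rfl) (S.orderEmbOfFin rfl).strictMono
  refine ⟨_, hm, _, hρ, fun u => ?_⟩
  have := Set.ext_iff.1 (S.range_orderEmbOfFin rfl) u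
  rw [Set.mem_range] at this
  exact Iff.trans (by simp [S]) this.symm

lemma R_le {z w : P} {t s : ℕ} (hz : R z t) (hw : R w s) (h : t &&& s = t) : z ≤ w := by
  obtain ⟨ht, e, he, h1⟩ := hz
  obtain ⟨-, f, hf, h2⟩ := hw
  choose k hk using fun i => (h2 _).1 ((and_iff ht).1 h (e i) ((h1 _).2 ⟨i, rfl⟩))
  refine ⟨k, fun i j hij => hf.1.lt_iff_lt.1 ?_, fun i j => ?_⟩
  · rw [hk, hk]; exact he.1 hij
  · rw [he.2, hf.2, hk, hk]

lemma R0 : R σ 3264 := ⟨by norm_num, e0, emb0,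
  show ∀ u : Fin 12, (3264).testBit u.val ↔ ∃ i : Fin 4, e0 i = u by decide⟩

lemma R_O {z : P} {t : ℕ} (hz : R z t) (h : σ ≤ z) : 3264 &&& t = 3264 := by
  obtain ⟨ht, e, he, h1⟩ := hz
  obtain ⟨p, hp⟩ := h
  have h2 := emb_uniq (hp.comp he)
  rw [and_iff (by norm_num)]
  intro u hu
  obtain ⟨i, hi⟩ := (show ∀ u : Fin 12, (3264).testBit u.val → ∃ i, e0 i = u by decide) u hu
  exact (h1 u).2 ⟨p i, (congrFun h2 i).trans hi⟩

def G (z : P) : ℤ := (tab.map fun p => if codeP z = p.1 then p.2.1 else 0).sum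

lemma sumG (I : Finset P) (l : List (List ℕ × ℤ × List ℕ)) :
    ∑ z ∈ I, (l.map fun p => if codeP z = p.1 then p.2.1 else 0).sum =
      (l.map fun p => if ∃ z ∈ I, codeP z = p.1 then p.2.1 else 0).sum := by
  induction l with
  | nil => simp
  | cons p l ih =>
    simp only [List.map_cons, List.sum_cons, Finset.sum_add_distrib, ih]
    congr 1
    split_ifs with h
    · obtain ⟨z, hz, h1⟩ := h
      rw [Finset.sum_eq_single z (fun w _ hw => if_neg fun h2 => hw (codeP_inj (h2.trans h1.symm)))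
        (fun h2 => absurd hz h2), if_pos h1]
    · exact Finset.sum_eq_zero fun z hz => if_neg fun h1 => h ⟨z, hz, h1⟩

lemma mu_base : mu σ τ = 2 := by
  have h : mu σ τ = G τ := by
    refine uniq (fun y => Icc σ y) (fun y => y.1) (fun y => σ ≤ y ∧ y ≤ τ) (mu σ) G ?_ ?_ ?_ τ
      ⟨⟨_, emb0⟩, le_rfl⟩
    · exact fun y hy => mem_Icc.2 ⟨hy.1, le_rfl⟩
    · intro y hy z hz
      rw [mem_Icc] at hz
      exact ⟨⟨hz.1, hz.2.trans hy.2⟩, size_lt hz.2⟩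
    · rintro y ⟨h1, e, he⟩
      obtain ⟨s, hs, hs2⟩ := R_of_emb he
      have hR : R y s := ⟨hs, e, he, hs2⟩
      have h3 := chkC s hs (R_O hR h1)
      rw [mu_sum]
      unfold G
      rw [sumG]
      have h4 : (σ = y) ↔ s = 3264 := by
        constructor
        · rintro rfl
          have h5 := emb_uniq he
          subst h5
          have h6 := (and_iff (s := 3264) hs).2 fun u hu =>
            (show ∀ u : Fin 12, (∃ i, e0 i = u) → (3264).testBit u.val by decide) u ((hs2 u).1 hu)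
          rw [← h6, Nat.and_comm]
          exact R_O hR le_rfl
        · rintro rfl
          exact codeP_inj ((R_code R0).trans (R_code hR).symm)
      simp only [h4]
      rw [← h3]
      congr 1
      apply List.map_congr_left
      intro p hp
      congr 1
      apply propext
      constructor
      · rintro ⟨t, ht, h5⟩
        obtain ⟨h6, h7⟩ := chkB p hp t ht
        obtain ⟨z, hz⟩ := R_ex t h6
        exact ⟨z, mem_Icc.2 ⟨R_le R0 hz h7, R_le hz hR h5⟩,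
          (R_code hz).trans ((chkA t h6 h7 p hp).2 ht)⟩
      · rintro ⟨z, hz, h5⟩
        rw [mem_Icc] at hz
        obtain ⟨f, hf⟩ := hz.2
        obtain ⟨t, ht, ht2⟩ := R_of_emb (hf.comp he)
        have hz2 : R z t := ⟨ht, _, hf.comp he, ht2⟩
        refine ⟨t, (chkA t ht (R_O hz2 hz.1) p hp).1 ((R_code hz2).symm.trans h5),
          (and_iff ht).2 fun u hu => ?_⟩
        obtain ⟨i, hi⟩ := (ht2 u).1 hu
        exact (hs2 u).2 ⟨f i, hi⟩
  rw [h]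
  decide +kernel

lemma fam (k : ℕ) : mu (pw σ k) (pw τ k) = 2 ^ k ∧
    ∀ e e', Emb (pw σ k) (pw τ k) e → Emb (pw σ k) (pw τ k) e' → e = e' := by
  have := main (σ := σ) (τ := τ) (i0 := (0 : Fin 4)) (i1 := (3 : Fin 4)) (by decide) (by decide)
    (by decide) (fun p hp i => by rw [emb_uniq hp]; revert i; decide) ⟨_, emb0⟩
    (fun e e' he he' => (emb_uniq he).trans (emb_uniq he').symm) k
  rw [mu_base] at this
  exact this.2

end Pool.Agent.H.MP_d308b2_co
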